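import Pool.Agent.Helper88.CG.Goals

/-!
The large sieve for prime moduli in the form of variances, with a spare logarithm.
-/

set_option autoImplicit false

open Finset Filter Topology

namespace Pool.Agent.Helper13.CG

/-! ### Additive characters -/

/-- `e(t) = exp(2πit)`. -/
noncomputable def e (t : ℝ) : ℂ := Complex.exp (Complex.I * ((2 * Real.pi * t : ℝ) : ℂ))

theorem e_add (s t : ℝ) : e (s + t) = e s * e t := by
  unfold e
  rw [← Complex.exp_add]
  congr 1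
  push_cast
  ring

theorem e_int (k : ℤ) : e k = 1 := by
  unfold e
  rw [Complex.exp_eq_one_iff]
  exact ⟨k, by push_cast; ring⟩

theorem e_zero : e 0 = 1 := by
  simpa using e_int 0

theorem norm_e (t : ℝ) : ‖e t‖ = 1 := by
  unfold e
  rw [mul_comm, Complex.norm_exp_ofReal_mul_I]

theorem conj_e (t : ℝ) : (starRingEnd ℂ) (e t) = e (-t) := by
  unfold e
  rw [← Complex.exp_conj]
  congr 1
  rw [map_mul, Complex.conj_I, Complex.conj_ofReal]
  push_cast
  ring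

theorem norm_e_sub_one (t : ℝ) : ‖e t - 1‖ = 2 * |Real.sin (Real.pi * t)| := by
  unfold e
  rw [Complex.norm_exp_I_mul_ofReal_sub_one, norm_mul, Real.norm_eq_abs, Real.norm_eq_abs]
  rw [show 2 * Real.pi * t / 2 = Real.pi * t by ring]
  norm_num

/-- `∑ e(nβ)`. -/
noncomputable def KK (M N : ℕ) (β : ℝ) : ℂ := ∑ n ∈ Ioc M (M + N), e (n * β)

theorem KK_le (M N : ℕ) (β : ℝ) : ‖KK M N β‖ ≤ N := by
  unfold KK
  refine (norm_sum_le _ _).trans ?_
  simp [norm_e]

theorem KK_add_int (M N : ℕ) (β : ℝ) (k : ℤ) : KK M N (β + k) = KK M N β := by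
  unfold KK
  refine Finset.sum_congr rfl fun n _ => ?_
  have : (n : ℝ) * (β + k) = n * β + ((n * k : ℤ) : ℝ) := by push_cast; ring
  rw [this, e_add, e_int, mul_one]

theorem KK_neg (M N : ℕ) (β : ℝ) : ‖KK M N (-β)‖ = ‖KK M N β‖ := by
  have : KK M N (-β) = (starRingEnd ℂ) (KK M N β) := by
    unfold KK
    rw [map_sum]
    refine Finset.sum_congr rfl fun n _ => ?_
    rw [conj_e]; congr 1; ring
  rw [this, RCLike.norm_conj]

theorem KK_geom (M N : ℕ) (β : ℝ) :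
    (e β - 1) * KK M N β = e ((M + N + 1 : ℕ) * β) - e ((M + 1 : ℕ) * β) := by
  induction N with
  | zero => simp [KK]
  | succ N ih =>
    have h1 : KK M (N + 1) β = KK M N β + e ((M + N + 1 : ℕ) * β) := by
      unfold KK
      rw [show M + (N + 1) = (M + N) + 1 by ring, ← Finset.insert_Ioc_right_eq_Ioc_add_one (by omega),
        Finset.sum_insert (by simp), add_comm]
    rw [h1, mul_add, ih]
    have h2 : e ((M + (N + 1) + 1 : ℕ) * β) = e β * e ((M + N + 1 : ℕ) * β) := by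
      rw [← e_add]; congr 1; push_cast; ring
    rw [h2]
    ring

theorem KK_le_inv (M N : ℕ) {β : ℝ} (h0 : β ≠ 0) (h1 : |β| ≤ 1 / 2) :
    ‖KK M N β‖ ≤ 1 / (2 * |β|) := by
  have hb : 0 < |β| := abs_pos.2 h0
  have h2 : 4 * |β| ≤ ‖e β - 1‖ := by
    rw [norm_e_sub_one]
    have h3 : |Real.sin (Real.pi * β)| = Real.sin (Real.pi * |β|) := by
      rcases le_total 0 β with h | h
      · rw [abs_of_nonneg h, abs_of_nonneg]
        apply Real.sin_nonneg_of_nonneg_of_le_pi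
        · positivity
        · rw [abs_of_nonneg h] at h1
          nlinarith [Real.pi_pos]
      · rw [abs_of_nonpos h]
        rw [abs_of_nonpos h] at h1
        have : Real.sin (Real.pi * β) = - Real.sin (Real.pi * -β) := by
          rw [← Real.sin_neg]; congr 1; ring
        rw [this, abs_neg, abs_of_nonneg]
        apply Real.sin_nonneg_of_nonneg_of_le_pi
        · have : 0 ≤ -β := by linarith
          positivity
        · nlinarith [Real.pi_pos]
    rw [h3]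
    have h4 := Real.mul_le_sin (x := Real.pi * |β|) (by positivity)
      (by nlinarith [Real.pi_pos])
    have h5 : 2 / Real.pi * (Real.pi * |β|) = 2 * |β| := by
      have := Real.pi_pos.ne'
      field_simp
    linarith
  have h3 : ‖e β - 1‖ * ‖KK M N β‖ ≤ 2 := by
    rw [← norm_mul, KK_geom]
    refine (norm_sub_le _ _).trans ?_
    rw [norm_e, norm_e]; norm_num
  rw [le_div_iff₀ (by positivity)]
  nlinarith [norm_nonneg (KK M N β)]

/-! ### The duality argument -/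

/-- `∑ f(n) e(nα)`. -/
noncomputable def SS (M N : ℕ) (f : ℕ → ℝ) (α : ℝ) : ℂ :=
  ∑ n ∈ Ioc M (M + N), (f n : ℂ) * e (n * α)

theorem large_sieve {ι : Type*} (R : Finset ι) (α : ι → ℝ) (M N : ℕ) (f : ℕ → ℝ) (D : ℝ)
    (hD : ∀ r ∈ R, ∑ s ∈ R, ‖KK M N (α r - α s)‖ ≤ D) (hD0 : 0 ≤ D) :
    ∑ r ∈ R, ‖SS M N f (α r)‖ ^ 2 ≤ D * ∑ n ∈ Ioc M (M + N), f n ^ 2 := by
  set T : ℝ := ∑ r ∈ R, ‖SS M N f (α r)‖ ^ 2 with hT
  have hT0 : 0 ≤ T := Finset.sum_nonneg fun _ _ => by positivity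
  set W : ℕ → ℂ := fun n => ∑ r ∈ R, (starRingEnd ℂ) (SS M N f (α r)) * e (n * α r) with hW
  have h1 : (T : ℂ) = ∑ n ∈ Ioc M (M + N), (f n : ℂ) * W n := by
    rw [hT]
    push_cast
    have : ∀ r ∈ R, ((‖SS M N f (α r)‖ : ℝ) : ℂ) ^ 2 =
        ∑ n ∈ Ioc M (M + N), (f n : ℂ) * ((starRingEnd ℂ) (SS M N f (α r)) * e (n * α r)) := by
      intro r _
      rw [← Complex.conj_mul']
      conv_lhs => rw [show (starRingEnd ℂ) (SS M N f (α r)) * SS M N f (α r) =
        (starRingEnd ℂ) (SS M N f (α r)) * ∑ n ∈ Ioc M (M + N), (f n : ℂ) * e (n * α r) from rfl]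
      rw [Finset.mul_sum]
      exact Finset.sum_congr rfl fun n _ => by ring
    rw [Finset.sum_congr rfl this, Finset.sum_comm]
    refine Finset.sum_congr rfl fun n _ => ?_
    rw [hW, Finset.mul_sum]
  have h2 : T ≤ ∑ n ∈ Ioc M (M + N), |f n| * ‖W n‖ := by
    have h3 : T = ‖(T : ℂ)‖ := by
      rw [Complex.norm_real, Real.norm_eq_abs, abs_of_nonneg hT0]
    rw [h3, h1]
    refine (norm_sum_le _ _).trans (Finset.sum_le_sum fun n _ => ?_)
    rw [norm_mul, Complex.norm_real, Real.norm_eq_abs]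
  have h4 : T ^ 2 ≤ (∑ n ∈ Ioc M (M + N), f n ^ 2) * ∑ n ∈ Ioc M (M + N), ‖W n‖ ^ 2 := by
    have h5 := Finset.sum_mul_sq_le_sq_mul_sq (Ioc M (M + N)) (fun n => |f n|) (fun n => ‖W n‖)
    simp only [sq_abs] at h5
    exact (pow_le_pow_left₀ hT0 h2 2).trans h5
  -- the dual sum
  have h6 : ((∑ n ∈ Ioc M (M + N), ‖W n‖ ^ 2 : ℝ) : ℂ) = ∑ r ∈ R, ∑ s ∈ R,
      (starRingEnd ℂ) (SS M N f (α r)) * SS M N f (α s) * KK M N (α r - α s) := by
    push_cast
    have h7 : ∀ n, ((‖W n‖ : ℝ) : ℂ) ^ 2 = ∑ r ∈ R, ∑ s ∈ R,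
        (starRingEnd ℂ) (SS M N f (α r)) * SS M N f (α s) * e (n * (α r - α s)) := by
      intro n
      rw [← Complex.mul_conj', hW]
      simp only
      rw [map_sum, Finset.sum_mul_sum]
      refine Finset.sum_congr rfl fun r _ => Finset.sum_congr rfl fun s _ => ?_
      rw [map_mul, Complex.conj_conj, conj_e]
      have : e (n * (α r - α s)) = e (n * α r) * e (-(n * α s)) := by
        rw [← e_add]; congr 1; ring
      rw [this]
      ring
    simp only [h7]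
    rw [Finset.sum_comm]
    refine Finset.sum_congr rfl fun r _ => ?_
    rw [Finset.sum_comm]
    refine Finset.sum_congr rfl fun s _ => ?_
    unfold KK
    rw [Finset.mul_sum]
  have h8 : ∑ n ∈ Ioc M (M + N), ‖W n‖ ^ 2 ≤ D * T := by
    have h9 : ∑ n ∈ Ioc M (M + N), ‖W n‖ ^ 2 ≤ ∑ r ∈ R, ∑ s ∈ R,
        ‖SS M N f (α r)‖ * ‖SS M N f (α s)‖ * ‖KK M N (α r - α s)‖ := by
      have h10 : ∑ n ∈ Ioc M (M + N), ‖W n‖ ^ 2 =
          ‖((∑ n ∈ Ioc M (M + N), ‖W n‖ ^ 2 : ℝ) : ℂ)‖ := by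
        rw [Complex.norm_real, Real.norm_eq_abs, abs_of_nonneg]
        exact Finset.sum_nonneg fun _ _ => by positivity
      rw [h10, h6]
      refine (norm_sum_le _ _).trans (Finset.sum_le_sum fun r _ => ?_)
      refine (norm_sum_le _ _).trans (Finset.sum_le_sum fun s _ => ?_)
      rw [norm_mul, norm_mul, RCLike.norm_conj]
    have h11 : ∑ r ∈ R, ∑ s ∈ R,
        ‖SS M N f (α r)‖ * ‖SS M N f (α s)‖ * ‖KK M N (α r - α s)‖ ≤
        ∑ r ∈ R, ∑ s ∈ R, (‖SS M N f (α r)‖ ^ 2 * ‖KK M N (α r - α s)‖ / 2 +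
          ‖SS M N f (α s)‖ ^ 2 * ‖KK M N (α r - α s)‖ / 2) := by
      refine Finset.sum_le_sum fun r _ => Finset.sum_le_sum fun s _ => ?_
      have := norm_nonneg (KK M N (α r - α s))
      nlinarith [mul_nonneg this (sq_nonneg (‖SS M N f (α r)‖ - ‖SS M N f (α s)‖))]
    have h12 : ∑ r ∈ R, ∑ s ∈ R, ‖SS M N f (α s)‖ ^ 2 * ‖KK M N (α r - α s)‖ / 2 =
        ∑ r ∈ R, ∑ s ∈ R, ‖SS M N f (α r)‖ ^ 2 * ‖KK M N (α r - α s)‖ / 2 := by
      rw [Finset.sum_comm]
      refine Finset.sum_congr rfl fun r _ => Finset.sum_congr rfl fun s _ => ?_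
      rw [← KK_neg]
      congr 4
      ring
    have h13 : ∑ r ∈ R, ∑ s ∈ R, (‖SS M N f (α r)‖ ^ 2 * ‖KK M N (α r - α s)‖ / 2 +
          ‖SS M N f (α s)‖ ^ 2 * ‖KK M N (α r - α s)‖ / 2) =
        ∑ r ∈ R, ‖SS M N f (α r)‖ ^ 2 * ∑ s ∈ R, ‖KK M N (α r - α s)‖ := by
      simp only [Finset.sum_add_distrib]
      rw [h12, ← Finset.sum_add_distrib]
      refine Finset.sum_congr rfl fun r _ => ?_
      rw [← Finset.sum_add_distrib, Finset.mul_sum]
      exact Finset.sum_congr rfl fun s _ => by ring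
    have h14 : ∑ r ∈ R, ‖SS M N f (α r)‖ ^ 2 * ∑ s ∈ R, ‖KK M N (α r - α s)‖ ≤ D * T := by
      rw [hT, Finset.mul_sum]
      refine Finset.sum_le_sum fun r hr => ?_
      rw [mul_comm D]
      exact mul_le_mul_of_nonneg_left (hD r hr) (by positivity)
    linarith
  have h15 : 0 ≤ ∑ n ∈ Ioc M (M + N), f n ^ 2 := Finset.sum_nonneg fun _ _ => sq_nonneg _
  have h16 : T ^ 2 ≤ (∑ n ∈ Ioc M (M + N), f n ^ 2) * (D * T) :=
    h4.trans (mul_le_mul_of_nonneg_left h8 h15)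
  rcases hT0.eq_or_lt with h | h
  · rw [← h]; positivity
  · by_contra hcon
    rw [not_le] at hcon
    nlinarith

/-! ### Parseval modulo `p` -/

theorem sum_e {p : ℕ} (hp : 0 < p) (k : ℤ) :
    ∑ a ∈ range p, e (k * (a / p)) = if (p : ℤ) ∣ k then (p : ℂ) else 0 := by
  have hp' : (p : ℝ) ≠ 0 := by positivity
  split_ifs with h
  · obtain ⟨m, rfl⟩ := h
    have : ∀ a ∈ range p, e (((p * m : ℤ) : ℝ) * (a / p)) = 1 := by
      intro a _
      have : ((p * m : ℤ) : ℝ) * (a / p) = ((m * a : ℤ) : ℝ) := by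
        push_cast; field_simp
      rw [this, e_int]
    rw [Finset.sum_congr rfl this]
    simp
  · have h1 : ∀ a : ℕ, e (k * (a / p)) = e (k / p) ^ a := by
      intro a
      induction a with
      | zero => simp [e_zero]
      | succ a ih =>
        rw [pow_succ, ← ih, ← e_add]
        congr 1
        push_cast
        ring
    simp only [h1]
    have h2 : e (k / p) ≠ 1 := by
      intro h3
      unfold e at h3
      rw [Complex.exp_eq_one_iff] at h3
      obtain ⟨m, hm⟩ := h3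
      apply h
      have h4 : Complex.I * ((2 * Real.pi * (k / p) : ℝ) : ℂ) =
          ((k / p : ℝ) : ℂ) * (2 * Real.pi * Complex.I) := by push_cast; ring
      rw [h4] at hm
      have h5 : (2 * (Real.pi : ℂ) * Complex.I) ≠ 0 := by
        simp [Real.pi_ne_zero]
      have h6 := mul_right_cancel₀ h5 hm
      have h7 : ((k : ℝ) / p) = m := by exact_mod_cast h6
      rw [div_eq_iff hp'] at h7
      exact ⟨m, by exact_mod_cast (by rw [h7]; ring : (k : ℝ) = p * m)⟩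
    have h3 := geom_sum_mul (e (k / p)) p
    have h4 : e (k / p) ^ p = 1 := by
      rw [← h1]
      have : (k : ℝ) * ((p : ℕ) / p) = (k : ℝ) := by field_simp
      rw [this, e_int]
    rw [h4, sub_self] at h3
    rcases mul_eq_zero.1 h3 with h5 | h5
    · exact h5
    · exact absurd (sub_eq_zero.1 h5) h2

theorem parseval {p : ℕ} (hp : 0 < p) (M N : ℕ) (f : ℕ → ℝ) :
    ∑ c ∈ range p, ((∑ n ∈ (Ioc M (M + N)).filter (fun n => n % p = c), f n) -
      (∑ n ∈ Ioc M (M + N), f n) / p) ^ 2 =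
    (1 / p) * ∑ a ∈ Ico 1 p, ‖SS M N f (a / p)‖ ^ 2 := by
  have hp' : (p : ℝ) ≠ 0 := by positivity
  set J := Ioc M (M + N) with hJ
  set Z : ℝ := ∑ n ∈ J, f n with hZ
  -- the sum over all `a`
  have h1 : ((∑ a ∈ range p, ‖SS M N f (a / p)‖ ^ 2 : ℝ) : ℂ) =
      ∑ m ∈ J, ∑ n ∈ J, (f m : ℂ) * f n * (if m % p = n % p then (p : ℂ) else 0) := by
    push_cast
    have h2 : ∀ a : ℕ, ((‖SS M N f (a / p)‖ : ℝ) : ℂ) ^ 2 =
        ∑ m ∈ J, ∑ n ∈ J, (f m : ℂ) * f n * e (((m : ℤ) - n : ℤ) * (a / p)) := by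
      intro a
      rw [← Complex.mul_conj']
      unfold SS
      rw [map_sum, Finset.sum_mul_sum]
      refine Finset.sum_congr rfl fun m _ => Finset.sum_congr rfl fun n _ => ?_
      rw [map_mul, conj_e, Complex.conj_ofReal]
      have : e (((m : ℤ) - n : ℤ) * (a / p)) = e (m * (a / p)) * e (-(n * (a / p))) := by
        rw [← e_add]; congr 1; push_cast; ring
      rw [this]
      ring
    simp only [h2]
    rw [Finset.sum_comm]
    refine Finset.sum_congr rfl fun m _ => ?_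
    rw [Finset.sum_comm]
    refine Finset.sum_congr rfl fun n _ => ?_
    rw [← Finset.mul_sum, sum_e hp]
    congr 1
    have h3 : ((p : ℤ) ∣ (m : ℤ) - n) ↔ m % p = n % p := by
      rw [← Int.modEq_iff_dvd, Int.natCast_modEq_iff]
      exact eq_comm
    simp only [h3]
  have h1' : ∑ a ∈ range p, ‖SS M N f (a / p)‖ ^ 2 =
      ∑ m ∈ J, ∑ n ∈ J, f m * f n * (if m % p = n % p then (p : ℝ) else 0) := by
    have : ((∑ a ∈ range p, ‖SS M N f (a / p)‖ ^ 2 : ℝ) : ℂ) =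
        ((∑ m ∈ J, ∑ n ∈ J, f m * f n * (if m % p = n % p then (p : ℝ) else 0) : ℝ) : ℂ) := by
      rw [h1]
      push_cast
      refine Finset.sum_congr rfl fun m _ => Finset.sum_congr rfl fun n _ => ?_
      split_ifs <;> simp
    exact_mod_cast this
  -- the sum of squares
  have h4 : ∑ c ∈ range p, (∑ n ∈ J.filter (fun n => n % p = c), f n) ^ 2 =
      ∑ m ∈ J, ∑ n ∈ J, f m * f n * (if m % p = n % p then (1 : ℝ) else 0) := by
    have h5 : ∀ c, (∑ n ∈ J.filter (fun n => n % p = c), f n) ^ 2 =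
        ∑ m ∈ J, ∑ n ∈ J, (if m % p = c then f m else 0) * (if n % p = c then f n else 0) := by
      intro c
      rw [sq, Finset.sum_filter, Finset.sum_mul_sum]
    simp only [h5]
    rw [Finset.sum_comm]
    refine Finset.sum_congr rfl fun m _ => ?_
    rw [Finset.sum_comm]
    refine Finset.sum_congr rfl fun n _ => ?_
    have hm : m % p ∈ range p := Finset.mem_range.2 (Nat.mod_lt _ hp)
    rw [Finset.sum_eq_single_of_mem (m % p) hm]
    · rw [if_pos rfl]
      by_cases h : m % p = n % p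
      · rw [if_pos h.symm, if_pos h]; ring
      · rw [if_neg (fun h' => h h'.symm), if_neg h]; ring
    · intro c _ hc
      rw [if_neg (fun h => hc h.symm), zero_mul]
  have h6 : ∑ a ∈ range p, ‖SS M N f (a / p)‖ ^ 2 =
      p * ∑ c ∈ range p, (∑ n ∈ J.filter (fun n => n % p = c), f n) ^ 2 := by
    rw [h1', h4, Finset.mul_sum]
    refine Finset.sum_congr rfl fun m _ => ?_
    rw [Finset.mul_sum]
    refine Finset.sum_congr rfl fun n _ => ?_
    split_ifs
    · ring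
    · ring
  have h7 : ∑ c ∈ range p, ∑ n ∈ J.filter (fun n => n % p = c), f n = Z := by
    rw [hZ]
    exact Finset.sum_fiberwise_of_maps_to (fun n _ => Finset.mem_range.2 (Nat.mod_lt _ hp)) f
  have h8 : ∑ a ∈ range p, ‖SS M N f (a / p)‖ ^ 2 =
      Z ^ 2 + ∑ a ∈ Ico 1 p, ‖SS M N f (a / p)‖ ^ 2 := by
    have h9 : range p = insert 0 (Ico 1 p) := by
      ext a
      simp only [Finset.mem_range, Finset.mem_insert, Finset.mem_Ico]
      omega
    rw [h9, Finset.sum_insert (by simp)]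
    congr 1
    have : SS M N f (((0 : ℕ) : ℝ) / p) = (Z : ℂ) := by
      unfold SS
      rw [hZ]
      push_cast
      refine Finset.sum_congr rfl fun n _ => ?_
      rw [zero_div, mul_zero, e_zero, mul_one]
    rw [this, Complex.norm_real, Real.norm_eq_abs, sq_abs]
  have h10 : ∑ c ∈ range p, ((∑ n ∈ J.filter (fun n => n % p = c), f n) - Z / p) ^ 2 =
      ∑ c ∈ range p, (∑ n ∈ J.filter (fun n => n % p = c), f n) ^ 2 - Z ^ 2 / p := by
    have h11 : ∀ c ∈ range p, ((∑ n ∈ J.filter (fun n => n % p = c), f n) - Z / p) ^ 2 =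
        (∑ n ∈ J.filter (fun n => n % p = c), f n) ^ 2 -
        2 * (Z / p) * (∑ n ∈ J.filter (fun n => n % p = c), f n) + (Z / p) ^ 2 := by
      intro c _; ring
    rw [Finset.sum_congr rfl h11, Finset.sum_add_distrib, Finset.sum_sub_distrib,
      ← Finset.mul_sum, h7, Finset.sum_const, Finset.card_range, nsmul_eq_mul]
    field_simp
    ring
  rw [h10]
  have h12 : ∑ a ∈ Ico 1 p, ‖SS M N f (a / p)‖ ^ 2 =
      p * ∑ c ∈ range p, (∑ n ∈ J.filter (fun n => n % p = c), f n) ^ 2 - Z ^ 2 := by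
    linarith
  rw [h12]
  field_simp

/-! ### Spacing of the fractions -/

/-- The numerator of the difference modulo one. -/
noncomputable def kk (p a q b : ℕ) : ℤ :=
  (a : ℤ) * q - b * p - p * q * round ((a : ℝ) / p - b / q)

theorem kk_spec {p a q b : ℕ} (hp : 0 < p) (hq : 0 < q) :
    (a : ℝ) / p - b / q = (kk p a q b : ℝ) / (p * q) +
      ((round ((a : ℝ) / p - b / q) : ℤ) : ℝ) := by
  have hp' : (p : ℝ) ≠ 0 := by positivity
  have hq' : (q : ℝ) ≠ 0 := by positivity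
  unfold kk
  push_cast
  field_simp
  ring

theorem kk_abs {p a q b : ℕ} (hp : 0 < p) (hq : 0 < q) :
    |(kk p a q b : ℝ) / (p * q)| ≤ 1 / 2 := by
  have h := abs_sub_round ((a : ℝ) / p - b / q)
  have h2 := kk_spec (a := a) (b := b) hp hq
  have h3 : (kk p a q b : ℝ) / (p * q) =
      (a : ℝ) / p - b / q - round ((a : ℝ) / p - b / q) := by linarith
  rw [h3]; exact h

theorem kk_ne_zero {p a q b : ℕ} (hp : p.Prime) (hq : q.Prime) (ha1 : 1 ≤ a) (ha2 : a < p)
    (hb1 : 1 ≤ b) (hb2 : b < q) (hne : ¬ (p = q ∧ a = b)) : kk p a q b ≠ 0 := by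
  intro h
  unfold kk at h
  set t := round ((a : ℝ) / p - b / q)
  have h1 : (p : ℤ) ∣ (a : ℤ) * q := ⟨b + q * t, by linarith⟩
  have h2 : p ∣ a * q := by exact_mod_cast h1
  rcases (hp.dvd_mul).1 h2 with h3 | h3
  · exact absurd (Nat.le_of_dvd (by omega) h3) (by omega)
  · have hpq : p = q := (Nat.prime_dvd_prime_iff_eq hp hq).1 h3
    subst hpq
    apply hne
    refine ⟨rfl, ?_⟩
    have hp0 : (p : ℤ) ≠ 0 := by exact_mod_cast hp.ne_zero
    have h4 : (a : ℤ) - b = p * t := by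
      apply mul_right_cancel₀ hp0
      linarith
    have h5 : |(a : ℤ) - b| < p := by rw [abs_lt]; constructor <;> omega
    have h6 : (a : ℤ) - b = 0 := Int.eq_zero_of_abs_lt_dvd ⟨t, h4⟩ h5
    omega

theorem kk_inj {P p a q b q' b' : ℕ} (hp : p.Prime) (ha1 : 1 ≤ a) (ha2 : a < p)
    (hpP : P < p) (hqP : P < q) (hqP2 : q ≤ 2 * P) (hqP' : P < q') (hqP2' : q' ≤ 2 * P)
    (hb2 : b < q) (hb2' : b' < q') (h : kk p a q b = kk p a q' b') : q = q' ∧ b = b' := by
  unfold kk at h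
  set t := round ((a : ℝ) / p - b / q)
  set t' := round ((a : ℝ) / p - b' / q')
  have h1 : (p : ℤ) ∣ (a : ℤ) * ((q : ℤ) - q') :=
    ⟨b - b' + q * t - q' * t', by linarith⟩
  have hqq : q = q' := by
    rcases (Nat.prime_iff_prime_int.1 hp).dvd_mul.1 h1 with h2 | h2
    · have h3 : p ∣ a := by exact_mod_cast h2
      exact absurd (Nat.le_of_dvd (by omega) h3) (by omega)
    · have h5 : |(q : ℤ) - q'| < p := by rw [abs_lt]; constructor <;> omega
      have h6 : (q : ℤ) - q' = 0 := Int.eq_zero_of_abs_lt_dvd h2 h5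
      omega
  subst hqq
  refine ⟨rfl, ?_⟩
  have hp0 : (p : ℤ) ≠ 0 := by exact_mod_cast hp.ne_zero
  have h4 : (b : ℤ) - b' = q * (t' - t) := by
    apply mul_right_cancel₀ hp0
    linarith
  have h5 : |(b : ℤ) - b'| < q := by rw [abs_lt]; constructor <;> omega
  have h6 : (b : ℤ) - b' = 0 := Int.eq_zero_of_abs_lt_dvd ⟨t' - t, h4⟩ h5
  omega

theorem sum_inv_le {ι : Type*} (A : Finset ι) (k : ι → ℤ) (L : ℕ) (h0 : ∀ i ∈ A, k i ≠ 0)
    (hL : ∀ i ∈ A, |k i| ≤ L) (hinj : ∀ i ∈ A, ∀ j ∈ A, k i = k j → i = j) :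
    ∑ i ∈ A, (1 : ℝ) / |(k i : ℝ)| ≤ 2 * (1 + Real.log L) := by
  classical
  have key : ∀ B ⊆ A, (∀ i ∈ B, ∀ j ∈ B, (k i).natAbs = (k j).natAbs → i = j) →
      ∑ i ∈ B, (1 : ℝ) / |(k i : ℝ)| ≤ 1 + Real.log L := by
    intro B hB hBinj
    have h1 : ∑ i ∈ B, (1 : ℝ) / |(k i : ℝ)| = ∑ j ∈ B.image (fun i => (k i).natAbs),
        ((j : ℝ))⁻¹ := by
      rw [Finset.sum_image]
      · refine Finset.sum_congr rfl fun i _ => ?_
        rw [one_div, Nat.cast_natAbs, Int.cast_abs]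
      · intro i hi j hj hij
        exact hBinj i hi j hj hij
    have h2 : B.image (fun i => (k i).natAbs) ⊆ Icc 1 L := by
      intro j hj
      obtain ⟨i, hi, rfl⟩ := Finset.mem_image.1 hj
      have := h0 i (hB hi)
      have h3 := hL i (hB hi)
      rw [Finset.mem_Icc]
      constructor
      · exact Int.natAbs_pos.2 this
      · have h3' : ((k i).natAbs : ℤ) ≤ L := by rw [Int.natCast_natAbs]; exact h3
        exact_mod_cast h3'
    have h3 : ∑ j ∈ B.image (fun i => (k i).natAbs), ((j : ℝ))⁻¹ ≤ ∑ j ∈ Icc 1 L, ((j : ℝ))⁻¹ :=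
      Finset.sum_le_sum_of_subset_of_nonneg h2 fun _ _ _ => by positivity
    have h4 : ∑ j ∈ Icc 1 L, ((j : ℝ))⁻¹ ≤ 1 + Real.log L := by
      have := harmonic_le_one_add_log L
      rw [harmonic_eq_sum_Icc] at this
      push_cast at this
      exact this
    linarith
  have h5 := key (A.filter fun i => 0 < k i) (Finset.filter_subset _ _) (by
    intro i hi j hj hij
    rw [Finset.mem_filter] at hi hj
    apply hinj i hi.1 j hj.1
    omega)
  have h6 := key (A.filter fun i => ¬ 0 < k i) (Finset.filter_subset _ _) (by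
    intro i hi j hj hij
    rw [Finset.mem_filter] at hi hj
    apply hinj i hi.1 j hj.1
    have := h0 i hi.1
    have := h0 j hj.1
    omega)
  rw [← Finset.sum_filter_add_sum_filter_not A (fun i => 0 < k i)]
  linarith

/-! ### The theorem -/

theorem va : Pool.Agent.Helper88.CG.StmtVA := by
  classical
  refine ⟨8, by norm_num, ?_⟩
  intro P N M f hP
  set PR := (Ioc P (2 * P)).filter Nat.Prime with hPR
  have hPRm : ∀ p ∈ PR, P < p ∧ p ≤ 2 * P ∧ p.Prime := by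
    intro p hp
    rw [hPR, Finset.mem_filter, Finset.mem_Ioc] at hp
    exact ⟨hp.1.1, hp.1.2, hp.2⟩
  set R : Finset (Σ _ : ℕ, ℕ) := PR.sigma (fun p => Ico 1 p) with hR
  set α : (Σ _ : ℕ, ℕ) → ℝ := fun r => (r.2 : ℝ) / r.1 with hα
  have hP0 : (0 : ℝ) < P := by exact_mod_cast hP
  have hlogP : 0 ≤ Real.log P := Real.log_nonneg (by exact_mod_cast hP)
  set D : ℝ := N + 8 * (P : ℝ) ^ 2 * (1 + Real.log P) with hD
  have hD0 : 0 ≤ D := by positivity
  have hRm : ∀ r ∈ R, P < r.1 ∧ r.1 ≤ 2 * P ∧ r.1.Prime ∧ 1 ≤ r.2 ∧ r.2 < r.1 := by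
    intro r hr
    rw [hR, Finset.mem_sigma, Finset.mem_Ico] at hr
    obtain ⟨h1, h2, h3⟩ := hr
    obtain ⟨h4, h5, h6⟩ := hPRm _ h1
    exact ⟨h4, h5, h6, h2, h3⟩
  have hsp : ∀ r ∈ R, ∑ s ∈ R, ‖KK M N (α r - α s)‖ ≤ D := by
    intro r hr
    obtain ⟨hr1, hr2, hr3, hr4, hr5⟩ := hRm r hr
    rw [← Finset.add_sum_erase R _ hr]
    have h1 : ‖KK M N (α r - α r)‖ ≤ N := KK_le M N _
    have h2 : ∀ s ∈ R.erase r, ‖KK M N (α r - α s)‖ ≤
        2 * (P : ℝ) ^ 2 * (1 / |((kk r.1 r.2 s.1 s.2 : ℤ) : ℝ)|) := by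
      intro s hs
      obtain ⟨hs0, hs⟩ := Finset.mem_erase.1 hs
      obtain ⟨hs1, hs2, hs3, hs4, hs5⟩ := hRm s hs
      have hk0 : kk r.1 r.2 s.1 s.2 ≠ 0 := by
        apply kk_ne_zero hr3 hs3 hr4 hr5 hs4 hs5
        rintro ⟨h3, h4⟩
        apply hs0
        obtain ⟨r1, r2⟩ := r
        obtain ⟨s1, s2⟩ := s
        simp only at h3 h4
        rw [h3, h4]
      have hrp : (0 : ℝ) < r.1 := by exact_mod_cast hr3.pos
      have hsp : (0 : ℝ) < s.1 := by exact_mod_cast hs3.pos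
      have h3 : α r - α s = (kk r.1 r.2 s.1 s.2 : ℝ) / (r.1 * s.1) +
          ((round ((r.2 : ℝ) / r.1 - s.2 / s.1) : ℤ) : ℝ) := kk_spec hr3.pos hs3.pos
      rw [h3, KK_add_int]
      have hk0' : ((kk r.1 r.2 s.1 s.2 : ℤ) : ℝ) ≠ 0 := by exact_mod_cast hk0
      have hkpos : 0 < |((kk r.1 r.2 s.1 s.2 : ℤ) : ℝ)| := abs_pos.2 hk0'
      have h4 := KK_le_inv M N (β := (kk r.1 r.2 s.1 s.2 : ℝ) / (r.1 * s.1))
        (div_ne_zero hk0' (by positivity)) (kk_abs hr3.pos hs3.pos)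
      refine h4.trans ?_
      rw [abs_div, abs_of_pos (show (0 : ℝ) < r.1 * s.1 by positivity)]
      have h5 : 1 / (2 * (|((kk r.1 r.2 s.1 s.2 : ℤ) : ℝ)| / (r.1 * s.1))) =
          (r.1 * s.1 / 2) * (1 / |((kk r.1 r.2 s.1 s.2 : ℤ) : ℝ)|) := by
        field_simp
      rw [h5]
      apply mul_le_mul_of_nonneg_right _ (by positivity)
      have h6 : (r.1 : ℝ) ≤ 2 * P := by exact_mod_cast hr2
      have h7 : (s.1 : ℝ) ≤ 2 * P := by exact_mod_cast hs2
      have h8 : (r.1 : ℝ) * s.1 ≤ (2 * P) * (2 * P) :=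
        mul_le_mul h6 h7 hsp.le (by positivity)
      nlinarith
    have h3 : ∑ s ∈ R.erase r, (1 : ℝ) / |((kk r.1 r.2 s.1 s.2 : ℤ) : ℝ)| ≤
        2 * (1 + Real.log ((2 * P ^ 2 : ℕ) : ℝ)) := by
      apply sum_inv_le
      · intro s hs
        obtain ⟨hs0, hs⟩ := Finset.mem_erase.1 hs
        obtain ⟨hs1, hs2, hs3, hs4, hs5⟩ := hRm s hs
        apply kk_ne_zero hr3 hs3 hr4 hr5 hs4 hs5
        rintro ⟨h3, h4⟩
        apply hs0
        obtain ⟨r1, r2⟩ := r
        obtain ⟨s1, s2⟩ := s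
        simp only at h3 h4
        rw [h3, h4]
      · intro s hs
        obtain ⟨hs0, hs⟩ := Finset.mem_erase.1 hs
        obtain ⟨hs1, hs2, hs3, hs4, hs5⟩ := hRm s hs
        have h4 := kk_abs (a := r.2) (b := s.2) hr3.pos hs3.pos
        have hrp : (0 : ℝ) < r.1 := by exact_mod_cast hr3.pos
        have hsp : (0 : ℝ) < s.1 := by exact_mod_cast hs3.pos
        rw [abs_div, abs_of_pos (show (0 : ℝ) < r.1 * s.1 by positivity),
          div_le_iff₀ (by positivity)] at h4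
        have h6 : (r.1 : ℝ) ≤ 2 * P := by exact_mod_cast hr2
        have h7 : (s.1 : ℝ) ≤ 2 * P := by exact_mod_cast hs2
        have h8 : (r.1 : ℝ) * s.1 ≤ (2 * P) * (2 * P) :=
          mul_le_mul h6 h7 hsp.le (by positivity)
        have h9 : |((kk r.1 r.2 s.1 s.2 : ℤ) : ℝ)| ≤ ((2 * P ^ 2 : ℕ) : ℝ) := by
          push_cast
          nlinarith
        exact_mod_cast h9
      · intro s hs s' hs' hss
        obtain ⟨hs0, hs⟩ := Finset.mem_erase.1 hs
        obtain ⟨hs1, hs2, hs3, hs4, hs5⟩ := hRm s hs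
        obtain ⟨hs0', hs'⟩ := Finset.mem_erase.1 hs'
        obtain ⟨hs1', hs2', hs3', hs4', hs5'⟩ := hRm s' hs'
        obtain ⟨e1, e2⟩ := kk_inj hr3 hr4 hr5 hr1 hs1 hs2 hs1' hs2' hs5 hs5' hss
        obtain ⟨s1, s2⟩ := s
        obtain ⟨t1, t2⟩ := s'
        simp only at e1 e2
        rw [e1, e2]
    have h4 : ∑ s ∈ R.erase r, ‖KK M N (α r - α s)‖ ≤
        2 * (P : ℝ) ^ 2 * (2 * (1 + Real.log ((2 * P ^ 2 : ℕ) : ℝ))) := by
      refine (Finset.sum_le_sum h2).trans ?_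
      rw [← Finset.mul_sum]
      exact mul_le_mul_of_nonneg_left h3 (by positivity)
    have h5 : Real.log ((2 * P ^ 2 : ℕ) : ℝ) = Real.log 2 + 2 * Real.log P := by
      push_cast
      rw [Real.log_mul (by norm_num) (by positivity), Real.log_pow]
      norm_num
    have h6 : Real.log 2 ≤ 1 := by
      have := Real.log_two_lt_d9
      linarith
    have h7 : 2 * (P : ℝ) ^ 2 * (2 * (1 + Real.log ((2 * P ^ 2 : ℕ) : ℝ))) ≤
        8 * (P : ℝ) ^ 2 * (1 + Real.log P) := by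
      rw [h5]
      have : 0 ≤ (P : ℝ) ^ 2 := by positivity
      nlinarith
    rw [hD]
    linarith
  have hLS := large_sieve R α M N f D hsp hD0
  have hsum : ∑ r ∈ R, ‖SS M N f (α r)‖ ^ 2 =
      ∑ p ∈ PR, ∑ a ∈ Ico 1 p, ‖SS M N f ((a : ℝ) / p)‖ ^ 2 := by
    rw [hR, Finset.sum_sigma]
  have hF : 0 ≤ ∑ n ∈ Ioc M (M + N), f n ^ 2 := Finset.sum_nonneg fun _ _ => sq_nonneg _
  calc ∑ p ∈ PR, ∑ c ∈ range p,
        ((∑ n ∈ (Ioc M (M + N)).filter (fun n => n % p = c), f n) -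
          (∑ n ∈ Ioc M (M + N), f n) / p) ^ 2
      = ∑ p ∈ PR, (1 / (p : ℝ)) * ∑ a ∈ Ico 1 p, ‖SS M N f ((a : ℝ) / p)‖ ^ 2 := by
        refine Finset.sum_congr rfl fun p hp => ?_
        rw [← parseval (hPRm p hp).2.2.pos]
    _ ≤ ∑ p ∈ PR, (1 / (P : ℝ)) * ∑ a ∈ Ico 1 p, ‖SS M N f ((a : ℝ) / p)‖ ^ 2 := by
        refine Finset.sum_le_sum fun p hp => ?_
        apply mul_le_mul_of_nonneg_right _ (Finset.sum_nonneg fun _ _ => by positivity)
        apply one_div_le_one_div_of_le hP0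
        exact_mod_cast (hPRm p hp).1.le
    _ = (1 / (P : ℝ)) * ∑ r ∈ R, ‖SS M N f (α r)‖ ^ 2 := by
        rw [hsum, Finset.mul_sum]
    _ ≤ (1 / (P : ℝ)) * (D * ∑ n ∈ Ioc M (M + N), f n ^ 2) :=
        mul_le_mul_of_nonneg_left hLS (by positivity)
    _ ≤ 8 / P * (N + (P : ℝ) ^ 2 * (1 + Real.log P)) * ∑ n ∈ Ioc M (M + N), f n ^ 2 := by
        rw [hD]
        have h1 : (N : ℝ) + 8 * (P : ℝ) ^ 2 * (1 + Real.log P) ≤
            8 * (N + (P : ℝ) ^ 2 * (1 + Real.log P)) := by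
          have : (0 : ℝ) ≤ N := Nat.cast_nonneg N
          nlinarith
        have h2 := mul_le_mul_of_nonneg_right h1 hF
        have h3 := mul_le_mul_of_nonneg_left h2 (show (0 : ℝ) ≤ 1 / P by positivity)
        calc _ ≤ _ := h3
          _ = _ := by ring

end Pool.Agent.Helper13.CG
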